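import Pool.Agent.Y668.PE.Mono

/-!
# The functions `M`, `M^M`, `M^E`, `E^M`, `E`, `E^E` with `M = -i log x`, `E = e^(2 + x)`
-/

set_option autoImplicit false

open Filter Topology Asymptotics Finset MvPolynomial

namespace Pool.Agent.Y668.PE

theorem log_littleO {α : Type} (l : Filter α) (ρ : α → ℝ) (hρ : Tendsto ρ l atTop) :
    (fun n => Real.log (ρ n)) =o[l] ρ :=
  Real.isLittleO_log_id_atTop.comp_tendsto hρ

theorem littleO_mul_log {α : Type} (l : Filter α) (ρ f : α → ℝ) (hρ : Tendsto ρ l atTop) :
    f =o[l] (fun n => f n * ρ n) := by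
  have h1 : (fun _ : α => (1 : ℝ)) =o[l] ρ := by
    rw [isLittleO_const_left]
    right
    exact tendsto_norm_atTop_atTop.comp hρ
  have h2 := (isBigO_refl f l).mul_isLittleO h1
  simpa using h2

/-- the entire functions `E = e^(2+x)` and `E^E` -/
noncomputable def phiLE (i : Fin 2) (x : ℂ) : ℂ :=
  ![Complex.exp (2 + x), Complex.exp ((2 + x) * Complex.exp (2 + x))] i

/-- the functions `M`, `M^M`, `M^E`, `E^M` of `w = M` -/
noncomputable def F2LE (i : Fin 4) (w : ℂ) : ℂ :=
  ![w, Complex.exp (w * Complex.log w),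
    Complex.exp (Complex.exp (2 + Complex.exp (Complex.I * w)) * Complex.log w),
    Complex.exp ((2 + Complex.exp (Complex.I * w)) * w)] i

theorem phiLE_an (i : Fin 2) (x : ℂ) : AnalyticAt ℂ (phiLE i) x := by
  fin_cases i
  · have : AnalyticAt ℂ (fun x : ℂ => Complex.exp (2 + x)) x := (analyticAt_const.add analyticAt_id).cexp
    exact this
  · have : AnalyticAt ℂ (fun x : ℂ => Complex.exp ((2 + x) * Complex.exp (2 + x))) x :=
      ((analyticAt_const.add analyticAt_id).mul (analyticAt_const.add analyticAt_id).cexp).cexp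
    exact this

theorem F2LE_an (i : Fin 4) : AnalyticOnNhd ℂ (F2LE i) RH := by
  intro w hw
  have hs : w ∈ Complex.slitPlane := Or.inl hw
  have hl : AnalyticAt ℂ (fun w : ℂ => Complex.log w) w := analyticAt_id.clog hs
  have he : AnalyticAt ℂ (fun w : ℂ => 2 + Complex.exp (Complex.I * w)) w :=
    analyticAt_const.add (analyticAt_const.mul analyticAt_id).cexp
  fin_cases i
  · exact (analyticAt_id : AnalyticAt ℂ (fun w : ℂ => w) w)
  · exact ((analyticAt_id.mul hl).cexp : AnalyticAt ℂ (fun w : ℂ => Complex.exp (w * Complex.log w)) w)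
  · exact ((he.cexp.mul hl).cexp : AnalyticAt ℂ (fun w : ℂ =>
      Complex.exp (Complex.exp (2 + Complex.exp (Complex.I * w)) * Complex.log w)) w)
  · exact ((he.mul analyticAt_id).cexp : AnalyticAt ℂ (fun w : ℂ =>
      Complex.exp ((2 + Complex.exp (Complex.I * w)) * w)) w)

/-- `Re E` on the unit circle -/
noncomputable def hre (r : ℝ) : ℝ := Real.exp (2 + Real.cos r) * Real.cos (Real.sin r)

theorem hre_anti : StrictAntiOn hre (Set.Ioo 0 1) := by
  intro a ha b hb hab
  have hpi := Real.pi_gt_three
  have h1 : Real.cos b < Real.cos a := Real.cos_lt_cos_of_nonneg_of_le_pi ha.1.le (by linarith [hb.2]) hab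
  have hsa : 0 ≤ Real.sin a := Real.sin_nonneg_of_nonneg_of_le_pi ha.1.le (by linarith [ha.2])
  have hsb : Real.sin b ≤ 1 := Real.sin_le_one b
  have hsab : Real.sin a < Real.sin b := Real.sin_lt_sin_of_lt_of_le_pi_div_two (by linarith [ha.1])
    (by linarith [hb.2]) hab
  have h2 : Real.cos (Real.sin b) < Real.cos (Real.sin a) :=
    Real.cos_lt_cos_of_nonneg_of_le_pi hsa (by linarith) hsab
  have h3 : 0 < Real.cos (Real.sin b) := Real.cos_pos_of_mem_Ioo ⟨by linarith, by linarith⟩
  unfold hre
  have h4 : Real.exp (2 + Real.cos b) < Real.exp (2 + Real.cos a) := Real.exp_lt_exp.2 (by linarith)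
  nlinarith [Real.exp_pos (2 + Real.cos b), Real.exp_pos (2 + Real.cos a)]

/-- the good points -/
def SLE : Set ℂ := {w | ∃ r : ℝ, 0 < r ∧ r < 1 ∧ Irrational (hre r) ∧ w = r}

theorem SLE_freq : ∃ᶠ w in 𝓝[≠] (((1 / 2 : ℝ)) : ℂ), w ∈ SLE := by
  have hC : {r : ℝ | r ∈ Set.Ioo (0 : ℝ) 1 ∧ ¬ Irrational (hre r)}.Countable := by
    refine Set.MapsTo.countable_of_injOn (f := hre) (t := Set.range ((↑) : ℚ → ℝ)) ?_ ?_ (Set.countable_range _)
    · intro r hr
      have := hr.2
      unfold Irrational at this
      rw [not_not] at this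
      exact this
    · intro a ha b hb hab
      exact hre_anti.injOn ha.1 hb.1 hab
  have hd := hC.dense_compl ℝ
  rw [frequently_iff]
  intro U hU
  rw [mem_nhdsWithin_iff_exists_mem_nhds_inter] at hU
  obtain ⟨V, hV, hVU⟩ := hU
  obtain ⟨δ, hδ, hball⟩ := Metric.mem_nhds_iff.1 hV
  have hopen : IsOpen (Set.Ioo (1 / 2 : ℝ) (1 / 2 + min δ (1 / 2))) := isOpen_Ioo
  have hne : (Set.Ioo (1 / 2 : ℝ) (1 / 2 + min δ (1 / 2))).Nonempty := by
    rw [Set.nonempty_Ioo]
    have : 0 < min δ (1 / 2) := lt_min hδ (by norm_num)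
    linarith
  obtain ⟨r, hr, hrC⟩ := hd.inter_open_nonempty _ hopen hne
  have hr1 : r < 1 := by
    have := min_le_right δ (1 / 2 : ℝ)
    linarith [hr.2]
  have hr2 : |r - 1 / 2| < δ := by
    rw [abs_of_pos (by linarith [hr.1])]
    have := min_le_left δ (1 / 2 : ℝ)
    linarith [hr.2]
  refine ⟨(r : ℂ), hVU ⟨hball ?_, ?_⟩, r, by linarith [hr.1], hr1, ?_, rfl⟩
  · rw [Metric.mem_ball, dist_eq_norm, ← Complex.ofReal_sub, Complex.norm_real]
    exact hr2
  · intro h
    simp only [Set.mem_singleton_iff] at h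
    have : r = 1 / 2 := by exact_mod_cast h
    linarith [hr.1]
  · by_contra h
    exact hrC ⟨⟨by linarith [hr.1], hr1⟩, h⟩

theorem cexp_shift (n : ℕ) (w : ℂ) : Complex.exp (Complex.I * (w + n * (2 * Real.pi))) =
    Complex.exp (Complex.I * w) := by
  have : Complex.I * (w + n * (2 * Real.pi)) = Complex.I * w + n * (2 * Real.pi * Complex.I) := by ring
  rw [this, Complex.exp_add, Complex.exp_nat_mul_two_pi_mul_I, mul_one]

theorem exp_I_re_im (r : ℝ) : (Complex.exp (Complex.I * r)).re = Real.cos r ∧
    (Complex.exp (Complex.I * r)).im = Real.sin r := by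
  rw [mul_comm]
  exact ⟨Complex.exp_ofReal_mul_I_re r, Complex.exp_ofReal_mul_I_im r⟩

theorem hre_eq (r : ℝ) : (Complex.exp (2 + Complex.exp (Complex.I * r))).re = hre r := by
  rw [Complex.exp_re]
  have h := exp_I_re_im r
  simp only [Complex.add_re, Complex.add_im, h.1, h.2]
  unfold hre
  norm_num

/-- the growth along the covering -/
theorem LE_growth (w : ℂ) (hw : w ∈ SLE) : ∃ u : Fin 4 → ℕ → ℝ,
    (∀ y, ∀ᶠ n : ℕ in atTop, ‖F2LE y (w + n * (2 * Real.pi))‖ = Real.exp (u y n)) ∧ Sep atTop u := by
  obtain ⟨r, hr0, hr1, hirr, rfl⟩ := hw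
  have hpi := Real.pi_pos
  set ρ : ℕ → ℝ := fun n => r + n * (2 * Real.pi) with hρ
  have hρpos : ∀ n, 0 < ρ n := fun n => by rw [hρ]; positivity
  have hρt : Tendsto ρ atTop atTop := by
    rw [hρ]
    exact tendsto_atTop_add_const_left _ _ (tendsto_natCast_atTop_atTop.atTop_mul_const (by positivity))
  have hlog : Tendsto (fun n => Real.log (ρ n)) atTop atTop := Real.tendsto_log_atTop.comp hρt
  have hcast : ∀ n : ℕ, ((r : ℂ) + n * (2 * Real.pi)) = ((ρ n : ℝ) : ℂ) := by
    intro n
    rw [hρ]
    push_cast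
    ring
  have hclog : ∀ n, Complex.log ((ρ n : ℝ) : ℂ) = ((Real.log (ρ n) : ℝ) : ℂ) := fun n =>
    (Complex.ofReal_log (hρpos n).le).symm
  have hexp : ∀ n, Complex.exp (Complex.I * ((ρ n : ℝ) : ℂ)) = Complex.exp (Complex.I * r) := by
    intro n
    rw [← hcast, cexp_shift]
  refine ⟨![fun n => Real.log (ρ n), fun n => ρ n * Real.log (ρ n), fun n => hre r * Real.log (ρ n),
    fun n => (2 + Real.cos r) * ρ n], ?_, ?_⟩
  · intro y
    refine Eventually.of_forall fun n => ?_
    rw [hcast]
    fin_cases y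
    · simp only [F2LE, Fin.zero_eta, Matrix.cons_val_zero]
      rw [Complex.norm_real, Real.norm_eq_abs, abs_of_pos (hρpos n), Real.exp_log (hρpos n)]
    · simp only [F2LE, Fin.mk_one, Matrix.cons_val_one, Matrix.cons_val_zero]
      rw [hclog, ← Complex.ofReal_mul, Complex.norm_exp, Complex.ofReal_re]
    · simp only [F2LE, Fin.reduceFinMk, Matrix.cons_val]
      rw [hclog, hexp, Complex.norm_exp, Complex.re_mul_ofReal, hre_eq]
    · simp only [F2LE, Fin.reduceFinMk, Matrix.cons_val]
      rw [hexp, Complex.norm_exp, Complex.re_mul_ofReal, Complex.add_re, (exp_I_re_im r).1]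
      norm_num
  · intro m hm
    have hc : 0 < 2 + Real.cos r := by linarith [Real.neg_one_le_cos r]
    have h := lin_of_chain (κ := Fin 3) atTop ![fun n => Real.log (ρ n), fun n => ρ n, fun n => ρ n * Real.log (ρ n)]
      (fun i => (i : ℕ)) Fin.val_injective (by
        intro y
        fin_cases y
        · exact hlog
        · exact hρt
        · exact hρt.atTop_mul_atTop₀ hlog) (by
        intro i j hij
        have e1 : (fun n => Real.log (ρ n)) =o[atTop] ρ := log_littleO _ _ hρt
        have e2 : ρ =o[atTop] (fun n => ρ n * Real.log (ρ n)) := littleO_mul_log _ _ _ hlog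
        fin_cases i <;> fin_cases j
        · exact absurd hij (by simp)
        · exact e1
        · exact e1.trans e2
        · exact absurd hij (by simp)
        · exact absurd hij (by simp)
        · exact e2
        · exact absurd hij (by simp)
        · exact absurd hij (by simp)
        · exact absurd hij (by simp))
      ![(m 0 : ℝ) + m 2 * hre r, m 3 * (2 + Real.cos r), m 1] (by
        intro h0
        apply hm
        have a0 : (m 0 : ℝ) + m 2 * hre r = 0 := by simpa using congrFun h0 0
        have a1 : (m 3 : ℝ) * (2 + Real.cos r) = 0 := by simpa using congrFun h0 1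
        have a2 : (m 1 : ℝ) = 0 := by simpa using congrFun h0 2
        have b2 : m 2 = 0 := by
          by_contra hne
          have hne' : (m 2 : ℝ) ≠ 0 := by exact_mod_cast hne
          apply hirr
          refine ⟨-(m 0 : ℚ) / m 2, ?_⟩
          push_cast
          rw [div_eq_iff hne']
          linarith
        have b0 : m 0 = 0 := by
          rw [b2] at a0
          simpa using a0
        have b3 : m 3 = 0 := by
          rcases mul_eq_zero.1 a1 with h | h
          · exact_mod_cast h
          · exact absurd h hc.ne'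
        have b1 : m 1 = 0 := by exact_mod_cast a2
        funext y
        fin_cases y
        · exact b0
        · exact b1
        · exact b2
        · exact b3)
    have e : ∀ n, ∑ y, (![(m 0 : ℝ) + m 2 * hre r, m 3 * (2 + Real.cos r), m 1] : Fin 3 → ℝ) y *
        (![fun n => Real.log (ρ n), fun n => ρ n, fun n => ρ n * Real.log (ρ n)] : Fin 3 → ℕ → ℝ) y n =
        ∑ y, (m y : ℝ) * (![fun n => Real.log (ρ n), fun n => ρ n * Real.log (ρ n), fun n => hre r * Real.log (ρ n),
          fun n => (2 + Real.cos r) * ρ n] : Fin 4 → ℕ → ℝ) y n := by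
      intro n
      rw [Fin.sum_univ_three, Fin.sum_univ_four]
      simp only [Matrix.cons_val_zero, Matrix.cons_val_one, Matrix.cons_val]
      ring
    simp only [e] at h
    exact h

theorem exp_superlin {α : Type} (l : Filter α) (f g : α → ℝ) (h1 : Tendsto f l atTop) (h2 : g =o[l] f) :
    Tendsto (fun x => f x - g x) l atTop := by
  have hev : ∀ᶠ x in l, |g x| ≤ 1 / 2 * |f x| := by
    have := h2.bound (show (0 : ℝ) < 1 / 2 by norm_num)
    simpa [Real.norm_eq_abs] using this
  refine tendsto_atTop_mono' l ?_ (h1.const_mul_atTop (show (0 : ℝ) < 1 / 2 by norm_num))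
  filter_upwards [hev, h1.eventually_ge_atTop 0] with x e1 e2
  rw [abs_of_nonneg e2] at e1
  have := (abs_le.1 e1).2
  linarith

theorem LE_base : ∀ R : MvPolynomial (Option (Fin 2)) ℂ,
    (∀ w ∈ SLE, eval (fun o => o.elim (Complex.exp (Complex.I * w)) fun y =>
      phiLE y (Complex.exp (Complex.I * w))) R = 0) → R = 0 := by
  intro R hR
  refine base phiLE phiLE_an (fun o x => o.elim (Real.log x) fun i =>
    (![2 + x, (2 + x) * Real.exp (2 + x)] : Fin 2 → ℝ) i) ?_ ?_ ?_ SLE _ SLE_freq R hR
  · filter_upwards [eventually_gt_atTop 0] with x hx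
    exact (Real.exp_log hx).symm
  · intro y
    refine Eventually.of_forall fun x => ?_
    fin_cases y
    · simp only [phiLE, Fin.zero_eta, Matrix.cons_val_zero, Option.elim]
      rw [Complex.norm_exp]
      simp
    · simp only [phiLE, Fin.mk_one, Matrix.cons_val_one, Matrix.cons_val_zero, Option.elim]
      rw [Complex.norm_exp]
      have : ((2 : ℂ) + x) * Complex.exp (2 + x) = (((2 + x) * Real.exp (2 + x) : ℝ) : ℂ) := by
        push_cast
        rfl
      rw [this, Complex.ofReal_re]
  · have t1 : Tendsto (fun x : ℝ => Real.log x) atTop atTop := Real.tendsto_log_atTop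
    have t2 : Tendsto (fun x : ℝ => 2 + x) atTop atTop := tendsto_atTop_add_const_left _ _ tendsto_id
    have t3 : Tendsto (fun x : ℝ => Real.exp (2 + x)) atTop atTop := Real.tendsto_exp_atTop.comp t2
    have e1 : (fun x : ℝ => Real.log x) =o[atTop] (fun x : ℝ => 2 + x) := by
      refine Real.isLittleO_log_id_atTop.trans_isBigO ?_
      refine IsBigO.of_bound 1 ?_
      filter_upwards [eventually_gt_atTop 0] with x hx
      simp only [id, Real.norm_eq_abs, one_mul]
      rw [abs_of_pos hx, abs_of_pos (by linarith)]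
      linarith
    have e2 : (fun x : ℝ => 2 + x) =o[atTop] (fun x : ℝ => (2 + x) * Real.exp (2 + x)) :=
      littleO_mul_log _ _ _ t3
    refine sep_of_chain atTop _ (fun o : Option (Fin 2) => o.elim 0 fun i => (i : ℕ) + 1) ?_ ?_ ?_
    · rintro (_ | i) (_ | j) h
      · rfl
      · simp at h
      · simp at h
      · simp only [Option.elim] at h
        congr 1
        exact Fin.ext (by omega)
    · rintro (_ | i)
      · exact t1
      · fin_cases i
        · exact t2
        · exact t2.atTop_mul_atTop₀ t3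
    · rintro (_ | i) (_ | j) h
      · exact absurd h (by simp)
      · fin_cases j
        · exact e1
        · exact e1.trans e2
      · exact absurd h (by simp)
      · fin_cases i <;> fin_cases j
        · exact absurd h (by simp)
        · exact e2
        · exact absurd h (by simp)
        · exact absurd h (by simp)

/-- the six functions -/
noncomputable def famLE (y : Fin 2 ⊕ Fin 4) (t : ℂ) : ℂ :=
  Sum.elim (fun i w => phiLE i (Complex.exp (Complex.I * w))) F2LE y (arg0 t)

theorem famLE_inl (i : Fin 2) {t : ℂ} (ht : t ≠ 0) : famLE (Sum.inl i) t = phiLE i t := by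
  simp only [famLE, Sum.elim_inl]
  rw [exp_arg0 t ht]

/-- **the six functions and `x` are algebraically independent** -/
theorem LE_locInd (t0 : ℂ) (ht0 : -t0 ∈ Complex.slitPlane) (P : MvPolynomial (Option (Fin 2 ⊕ Fin 4)) ℂ)
    (h : ∀ᶠ t in 𝓝 t0, eval (fun o => o.elim t fun y => famLE y t) P = 0) : P = 0 := by
  refine mono (fun i w => phiLE i (Complex.exp (Complex.I * w))) F2LE ?_ F2LE_an ?_ SLE ?_ LE_growth LE_base
    t0 ht0 P h
  · intro y w _
    exact (phiLE_an y _).comp_of_eq (analyticAt_const.mul analyticAt_id).cexp rfl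
  · intro y w
    have := cexp_shift 1 w
    rw [Nat.cast_one, one_mul] at this
    simp only [this]
  · rintro w ⟨r, hr, -, -, rfl⟩
    exact hr

end Pool.Agent.Y668.PE
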