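import Pool.Agent.Y668.PE.Sep

/-!
# Algebraic independence by monodromy

`arg0 x = -i log x` with the branch `arg0 (-1) = π`, defined outside the half line `[0, ∞)`.
-/

set_option autoImplicit false

open Filter Topology Asymptotics Finset MvPolynomial

namespace Pool.Agent.Y668.PE

/-- `-i log x`, with the value `π` at `x = -1` -/
noncomputable def arg0 (x : ℂ) : ℂ := Real.pi - Complex.I * Complex.log (-x)

theorem arg0_re_pos (x : ℂ) : 0 < (arg0 x).re := by
  have h1 : (arg0 x).re = Real.pi + Complex.arg (-x) := by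
    simp [arg0, Complex.log_im]
  have h2 := Complex.neg_pi_lt_arg (-x)
  rw [h1]
  linarith

theorem exp_arg0 (x : ℂ) (hx : x ≠ 0) : Complex.exp (Complex.I * arg0 x) = x := by
  have h1 : Complex.I * arg0 x = Real.pi * Complex.I + Complex.log (-x) := by
    unfold arg0
    have := Complex.I_mul_I
    linear_combination (-Complex.log (-x)) * this
  rw [h1, Complex.exp_add, Complex.exp_pi_mul_I, Complex.exp_log (neg_ne_zero.2 hx)]
  ring

theorem arg0_exp (w : ℂ) (h1 : 0 < w.re) (h2 : w.re < 2 * Real.pi) : arg0 (Complex.exp (Complex.I * w)) = w := by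
  have h3 : -Complex.exp (Complex.I * w) = Complex.exp (Complex.I * (w - Real.pi)) := by
    have : Complex.I * (w - Real.pi) = Complex.I * w + -(Real.pi * Complex.I) := by ring
    rw [this, Complex.exp_add, Complex.exp_neg, Complex.exp_pi_mul_I]
    ring
  have h4 : Complex.log (Complex.exp (Complex.I * (w - Real.pi))) = Complex.I * (w - Real.pi) := by
    apply Complex.log_exp
    · simp
      linarith
    · simp
      linarith
  unfold arg0
  rw [h3, h4]
  have := Complex.I_mul_I
  linear_combination (-(w - Real.pi)) * this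

theorem arg0_analytic (x : ℂ) (hx : -x ∈ Complex.slitPlane) : AnalyticAt ℂ arg0 x := by
  unfold arg0
  exact analyticAt_const.sub (analyticAt_const.mul (analyticAt_id.neg.clog hx))

theorem slit_ne {x : ℂ} (hx : -x ∈ Complex.slitPlane) : x ≠ 0 := by
  rintro rfl
  simp at hx

/-- the right half plane -/
def RH : Set ℂ := {w | 0 < w.re}

theorem RH_open : IsOpen RH := isOpen_lt continuous_const Complex.continuous_re

theorem RH_pre : IsPreconnected RH := (convex_halfSpace_re_gt 0).isPreconnected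

/-- a relation near a point is a relation on the half plane -/
theorem transfer {κ : Type} (F : κ → ℂ → ℂ) (hF : ∀ y, AnalyticOnNhd ℂ (F y) RH) (t0 : ℂ)
    (ht0 : -t0 ∈ Complex.slitPlane) (P : MvPolynomial (Option κ) ℂ)
    (h : ∀ᶠ t in 𝓝 t0, eval (fun o => o.elim t fun y => F y (arg0 t)) P = 0) :
    ∀ w ∈ RH, eval (fun o => o.elim (Complex.exp (Complex.I * w)) fun y => F y w) P = 0 := by
  have hre1 := arg0_re_pos t0
  have hre2 : (arg0 t0).re < 2 * Real.pi := by
    have h1 : (arg0 t0).re = Real.pi + Complex.arg (-t0) := by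
      simp [arg0, Complex.log_im]
    have h2 : Complex.arg (-t0) < Real.pi := by
      refine lt_of_le_of_ne (Complex.arg_le_pi _) ?_
      exact Complex.slitPlane_arg_ne_pi ht0
    linarith
  have han : AnalyticOnNhd ℂ (fun w => eval (fun o => o.elim (Complex.exp (Complex.I * w)) fun y => F y w) P) RH := by
    have h1 : AnalyticOnNhd ℂ (fun w => aeval (fun o : Option κ => o.elim (Complex.exp (Complex.I * w))
        fun y => F y w) P) RH := by
      apply AnalyticOnNhd.aeval_mvPolynomial
      rintro (_ | y)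
      · intro w _
        exact (analyticAt_const.mul analyticAt_id).cexp
      · exact hF y
    refine h1.congr RH_open fun w _ => ?_
    simp [aeval_eq_eval]
  refine han.eqOn_zero_of_preconnected_of_eventuallyEq_zero RH_pre hre1 ?_
  have hc : ContinuousAt (fun w : ℂ => Complex.exp (Complex.I * w)) (arg0 t0) := by fun_prop
  have hc' : Tendsto (fun w : ℂ => Complex.exp (Complex.I * w)) (𝓝 (arg0 t0)) (𝓝 t0) := by
    have := hc.tendsto
    simp only [exp_arg0 t0 (slit_ne ht0)] at this
    exact this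
  have hopen1 : ∀ᶠ w in 𝓝 (arg0 t0), 0 < w.re := RH_open.mem_nhds hre1
  have hopen2 : ∀ᶠ w in 𝓝 (arg0 t0), w.re < 2 * Real.pi :=
    (isOpen_lt Complex.continuous_re continuous_const).mem_nhds hre2
  filter_upwards [hc'.eventually h, hopen1, hopen2] with w h1 h2 h2'
  simp only [Pi.zero_apply]
  rw [arg0_exp w h2 h2'] at h1
  exact h1

theorem eval_sum {κ₁ κ₂ : Type} (Q : MvPolynomial (κ₂ ⊕ κ₁) ℂ) (a : κ₁ → ℂ) (b : κ₂ → ℂ) :
    eval b (MvPolynomial.map (eval a) (sumAlgEquiv ℂ κ₂ κ₁ Q)) = eval (Sum.elim b a) Q := by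
  have h : ((eval b).comp ((MvPolynomial.map (eval a)).comp (sumAlgEquiv ℂ κ₂ κ₁ : _ →+* _))) =
      (eval (Sum.elim b a) : MvPolynomial (κ₂ ⊕ κ₁) ℂ →+* ℂ) := by
    apply MvPolynomial.ringHom_ext
    · intro r
      simp
    · rintro (y | y)
      · simp
      · simp
  exact DFunLike.congr_fun h Q

/-- the bookkeeping: the relation as a polynomial in the second family -/
noncomputable def splitP {κ₁ κ₂ : Type} (P : MvPolynomial (Option (κ₁ ⊕ κ₂)) ℂ) :
    MvPolynomial κ₂ (MvPolynomial (Option κ₁) ℂ) :=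
  sumAlgEquiv ℂ κ₂ (Option κ₁) (rename (fun o => o.elim (Sum.inr none)
    (Sum.elim (fun y => Sum.inr (some y)) Sum.inl)) P)

theorem splitP_inj {κ₁ κ₂ : Type} {P : MvPolynomial (Option (κ₁ ⊕ κ₂)) ℂ} (h : splitP P = 0) : P = 0 := by
  unfold splitP at h
  rw [EmbeddingLike.map_eq_zero_iff] at h
  refine rename_injective _ ?_ (h.trans (map_zero _).symm)
  rintro (_ | (y | y)) (_ | (z | z)) <;> simp

theorem splitP_eval {κ₁ κ₂ : Type} (P : MvPolynomial (Option (κ₁ ⊕ κ₂)) ℂ) (x : ℂ) (a : κ₁ → ℂ) (b : κ₂ → ℂ) :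
    eval b (MvPolynomial.map (eval fun o : Option κ₁ => o.elim x a) (splitP P)) =
      eval (fun o => o.elim x (Sum.elim a b)) P := by
  unfold splitP
  rw [eval_sum, eval_rename]
  congr 1
  congr 1
  funext o
  rcases o with _ | (y | y) <;> rfl

/-- **independence by monodromy** -/
theorem mono {κ₁ κ₂ : Type} [Fintype κ₂] (F₁ : κ₁ → ℂ → ℂ) (F₂ : κ₂ → ℂ → ℂ)
    (hF₁ : ∀ y, AnalyticOnNhd ℂ (F₁ y) RH) (hF₂ : ∀ y, AnalyticOnNhd ℂ (F₂ y) RH)
    (hper : ∀ y w, F₁ y (w + 2 * Real.pi) = F₁ y w)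
    (S : Set ℂ) (hS : S ⊆ RH)
    (hgr : ∀ w ∈ S, ∃ u : κ₂ → ℕ → ℝ, (∀ y, ∀ᶠ n : ℕ in atTop, ‖F₂ y (w + n * (2 * Real.pi))‖ =
      Real.exp (u y n)) ∧ Sep atTop u)
    (hbase : ∀ R : MvPolynomial (Option κ₁) ℂ,
      (∀ w ∈ S, eval (fun o => o.elim (Complex.exp (Complex.I * w)) fun y => F₁ y w) R = 0) → R = 0)
    (t0 : ℂ) (ht0 : -t0 ∈ Complex.slitPlane) (P : MvPolynomial (Option (κ₁ ⊕ κ₂)) ℂ)
    (h : ∀ᶠ t in 𝓝 t0, eval (fun o => o.elim t fun y => Sum.elim F₁ F₂ y (arg0 t)) P = 0) : P = 0 := by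
  have h1 := transfer (Sum.elim F₁ F₂) (by rintro (y | y); exacts [hF₁ y, hF₂ y]) t0 ht0 P h
  have hpern : ∀ (n : ℕ) y w, F₁ y (w + n * (2 * Real.pi)) = F₁ y w := by
    intro n y w
    induction n with
    | zero => simp
    | succ n ih =>
      rw [← ih, ← hper y (w + n * (2 * Real.pi))]
      congr 1
      push_cast
      ring
  have hexp : ∀ (n : ℕ) (w : ℂ), Complex.exp (Complex.I * (w + n * (2 * Real.pi))) =
      Complex.exp (Complex.I * w) := by
    intro n w
    have : Complex.I * (w + n * (2 * Real.pi)) = Complex.I * w + n * (2 * Real.pi * Complex.I) := by ring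
    rw [this, Complex.exp_add, Complex.exp_nat_mul_two_pi_mul_I, mul_one]
  apply splitP_inj
  rw [MvPolynomial.ext_iff]
  intro e
  rw [coeff_zero]
  apply hbase
  intro w hw
  obtain ⟨u, hu1, hu2⟩ := hgr w hw
  have h2 : MvPolynomial.map (eval fun o : Option κ₁ => o.elim (Complex.exp (Complex.I * w)) fun y => F₁ y w) (splitP P) = 0 := by
    refine sep_aindep atTop (fun y (n : ℕ) => F₂ y (w + n * (2 * Real.pi))) u hu1 hu2 _ ?_
    refine Eventually.of_forall fun n => ?_
    have h3 : w + n * (2 * Real.pi) ∈ RH := by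
      have := hS hw
      unfold RH at this ⊢
      simp only [Set.mem_ofPred_eq] at this ⊢
      have e1 : (w + n * (2 * Real.pi)).re = w.re + n * (2 * Real.pi) := by
        simp
      rw [e1]
      positivity
    have h4 := h1 _ h3
    rw [hexp] at h4
    rw [splitP_eval, ← h4]
    congr 1
    congr 1
    funext o
    rcases o with _ | (y | y)
    · rfl
    · simp only [Option.elim, Sum.elim_inl]
      rw [hpern]
    · rfl
  have h5 := congrArg (coeff e) h2
  rw [coeff_map, coeff_zero] at h5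
  exact h5

/-- the base of the induction: functions of `x` which are entire and separated as `x → +∞` -/
theorem base {κ₁ : Type} [Fintype κ₁] (φ : κ₁ → ℂ → ℂ) (hφ : ∀ y z, AnalyticAt ℂ (φ y) z)
    (u : Option κ₁ → ℝ → ℝ) (hu0 : ∀ᶠ x in atTop, x = Real.exp (u none x))
    (hu1 : ∀ y, ∀ᶠ x : ℝ in atTop, ‖φ y x‖ = Real.exp (u (some y) x)) (hsep : Sep atTop u)
    (S : Set ℂ) (w1 : ℂ) (hS : ∃ᶠ w in 𝓝[≠] w1, w ∈ S) (R : MvPolynomial (Option κ₁) ℂ)
    (h : ∀ w ∈ S, eval (fun o => o.elim (Complex.exp (Complex.I * w)) fun y =>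
      φ y (Complex.exp (Complex.I * w))) R = 0) : R = 0 := by
  have han : AnalyticOnNhd ℂ (fun w => eval (fun o => o.elim (Complex.exp (Complex.I * w)) fun y =>
      φ y (Complex.exp (Complex.I * w))) R) Set.univ := by
    have h1 : AnalyticOnNhd ℂ (fun w => aeval (fun o : Option κ₁ => o.elim (Complex.exp (Complex.I * w))
        fun y => φ y (Complex.exp (Complex.I * w))) R) Set.univ := by
      apply AnalyticOnNhd.aeval_mvPolynomial
      rintro (_ | y)
      · intro w _
        exact (analyticAt_const.mul analyticAt_id).cexp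
      · intro w _
        exact (hφ y _).comp_of_eq (analyticAt_const.mul analyticAt_id).cexp rfl
    refine h1.congr isOpen_univ fun w _ => ?_
    simp [aeval_eq_eval]
  have h2 := han.eqOn_zero_of_preconnected_of_frequently_eq_zero isPreconnected_univ (Set.mem_univ w1)
    (hS.mono fun w hw => h w hw)
  refine sep_aindep atTop (fun (o : Option κ₁) (x : ℝ) => o.elim (x : ℂ) fun y => φ y x) u ?_ hsep R ?_
  · rintro (_ | y)
    · filter_upwards [hu0, eventually_gt_atTop 0] with x hx hx0
      rw [← hx]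
      simp [abs_of_pos hx0]
    · exact hu1 y
  · filter_upwards [eventually_gt_atTop 0] with x hx0
    have h3 := h2 (Set.mem_univ (-(Complex.I * Real.log x)))
    have h4 : Complex.exp (Complex.I * (-(Complex.I * Real.log x))) = x := by
      have : Complex.I * (-(Complex.I * Real.log x)) = (Real.log x : ℂ) := by
        have := Complex.I_mul_I
        linear_combination (-(Real.log x : ℂ)) * this
      rw [this, ← Complex.ofReal_exp, Real.exp_log hx0]
    simp only [h4, Pi.zero_apply] at h3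
    rw [← h3]

end Pool.Agent.Y668.PE
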