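import Pool.Agent.Y668.PE.TowM

/-!
# Powers `b^M`, `b^E` with multiplicatively independent bases
-/

set_option autoImplicit false

open Filter Topology Asymptotics Finset MvPolynomial

namespace Pool.Agent.Y668.PE

/-- `E` and `b^E` -/
noncomputable def phiB {h : ℕ} (b : Fin h → ℝ) : Option (Fin h) → ℂ → ℂ
  | none, x => Complex.exp (2 + x)
  | some j, x => Complex.exp (Real.log (b j) * Complex.exp (2 + x))

/-- `M` and `b^M` -/
noncomputable def F2B {h : ℕ} (b : Fin h → ℝ) : Option (Fin h) → ℂ → ℂ
  | none, w => w
  | some j, w => Complex.exp (Real.log (b j) * w)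

theorem phiB_an {h : ℕ} (b : Fin h → ℝ) (y : Option (Fin h)) (x : ℂ) : AnalyticAt ℂ (phiB b y) x := by
  have h1 : AnalyticAt ℂ (fun x : ℂ => Complex.exp (2 + x)) x := (analyticAt_const.add analyticAt_id).cexp
  rcases y with _ | j
  · exact h1
  · exact ((analyticAt_const.mul h1).cexp :
      AnalyticAt ℂ (fun x : ℂ => Complex.exp (Real.log (b j) * Complex.exp (2 + x))) x)

theorem F2B_an {h : ℕ} (b : Fin h → ℝ) (y : Option (Fin h)) : AnalyticOnNhd ℂ (F2B b y) RH := by
  intro w _
  rcases y with _ | j
  · exact (analyticAt_id : AnalyticAt ℂ (fun w : ℂ => w) w)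
  · exact ((analyticAt_const.mul analyticAt_id).cexp :
      AnalyticAt ℂ (fun w : ℂ => Complex.exp (Real.log (b j) * w)) w)

theorem B_locInd {h : ℕ} (b : Fin h → ℝ) (hb : ∀ v : Fin h → ℤ, ∑ j, (v j : ℝ) * Real.log (b j) = 0 → v = 0)
    (t0 : ℂ) (ht0 : -t0 ∈ Complex.slitPlane)
    (P : MvPolynomial (Option (Option (Fin h) ⊕ Option (Fin h))) ℂ)
    (hP : ∀ᶠ t in 𝓝 t0, eval (fun o => o.elim t fun y => Sum.elim
      (fun (y : Option (Fin h)) w => phiB b y (Complex.exp (Complex.I * w))) (F2B b) y (arg0 t)) P = 0) : P = 0 := by
  have h01 : (0 : Fin 2) ≠ 1 := by decide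
  refine mono (fun y w => phiB b y (Complex.exp (Complex.I * w))) (F2B b) ?_ (F2B_an b) ?_ SPos ?_ ?_ ?_ t0 ht0 P hP
  · intro y w _
    exact (phiB_an b y _).comp_of_eq (analyticAt_const.mul analyticAt_id).cexp rfl
  · intro y w
    have := cexp_shift 1 w
    rw [Nat.cast_one, one_mul] at this
    simp only [this]
  · rintro w ⟨r, hr, rfl⟩
    exact hr
  · rintro w ⟨r, hr, rfl⟩
    refine ⟨fun y n => y.elim (Real.log (r + n * (2 * Real.pi))) fun j => Real.log (b j) * (r + n * (2 * Real.pi)), ?_, ?_⟩
    · rintro (_ | j)
      · refine Eventually.of_forall fun n => ?_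
        have hp : 0 < r + n * (2 * Real.pi) := by positivity
        rw [rho_cast]
        simp only [F2B, Option.elim]
        rw [Complex.norm_real, Real.norm_eq_abs, abs_of_pos hp, Real.exp_log hp]
      · refine Eventually.of_forall fun n => ?_
        rw [rho_cast]
        simp only [F2B, Option.elim]
        rw [← Complex.ofReal_mul, Complex.norm_exp, Complex.ofReal_re]
    · intro m hm
      have hc := lin_of_chain (κ := Fin 2) atTop ![fun n : ℕ => Real.log (r + n * (2 * Real.pi)),
        fun n : ℕ => r + n * (2 * Real.pi)] (fun i => (i : ℕ)) Fin.val_injective (by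
          intro y
          fin_cases y
          · exact Real.tendsto_log_atTop.comp (rho_tendsto r)
          · exact rho_tendsto r) (by
          intro i j hij
          fin_cases i <;> fin_cases j
          · exact absurd hij (by simp)
          · exact log_littleO _ _ (rho_tendsto r)
          · exact absurd hij (by simp)
          · exact absurd hij (by simp))
        ![(m none : ℝ), ∑ j, (m (some j) : ℝ) * Real.log (b j)] (by
          intro h0
          apply hm
          have a0 : (m none : ℝ) = 0 := by simpa using congrFun h0 0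
          have a1 : ∑ j, (m (some j) : ℝ) * Real.log (b j) = 0 := by simpa using congrFun h0 1
          have a2 := hb (fun j => m (some j)) a1
          funext y
          rcases y with _ | j
          · exact_mod_cast a0
          · exact congrFun a2 j)
      have e : ∀ n : ℕ, ∑ y, (![(m none : ℝ), ∑ j, (m (some j) : ℝ) * Real.log (b j)] : Fin 2 → ℝ) y *
          (![fun n : ℕ => Real.log (r + n * (2 * Real.pi)), fun n : ℕ => r + n * (2 * Real.pi)] : Fin 2 → ℕ → ℝ) y n =
          ∑ y, (m y : ℝ) * (y.elim (Real.log (r + n * (2 * Real.pi))) fun j =>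
            Real.log (b j) * (r + n * (2 * Real.pi))) := by
        intro n
        rw [Fin.sum_univ_two, Fintype.sum_option]
        simp only [Matrix.cons_val_zero, Matrix.cons_val_one, Option.elim]
        rw [sum_mul]
        congr 1
        exact sum_congr rfl fun j _ => by ring
      simp only [e] at hc
      exact hc
  · intro R hR
    refine base (phiB b) (phiB_an b) (fun o x => o.elim (Real.log x) fun y => y.elim (2 + x) fun j =>
      Real.log (b j) * Real.exp (2 + x)) ?_ ?_ ?_ SPos _ SPos_freq R hR
    · filter_upwards [eventually_gt_atTop 0] with x hx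
      exact (Real.exp_log hx).symm
    · rintro (_ | j)
      · refine Eventually.of_forall fun x => ?_
        simp only [phiB, Option.elim]
        rw [Complex.norm_exp]
        simp
      · refine Eventually.of_forall fun x => ?_
        simp only [phiB, Option.elim]
        rw [Complex.norm_exp]
        have : (Real.log (b j) : ℂ) * Complex.exp (2 + x) = ((Real.log (b j) * Real.exp (2 + x) : ℝ) : ℂ) := by
          push_cast
          rfl
        rw [this, Complex.ofReal_re]
    · intro m hm
      have t1 : Tendsto (fun x : ℝ => Real.log x) atTop atTop := Real.tendsto_log_atTop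
      have t2 : Tendsto (fun x : ℝ => 2 + x) atTop atTop := tendsto_atTop_add_const_left _ _ tendsto_id
      have t3 : Tendsto (fun x : ℝ => Real.exp (2 + x)) atTop atTop := Real.tendsto_exp_atTop.comp t2
      have e1 : (fun x : ℝ => Real.log x) =o[atTop] (fun x : ℝ => 2 + x) := by
        refine Real.isLittleO_log_id_atTop.trans_isBigO ?_
        refine IsBigO.of_bound 1 ?_
        filter_upwards [eventually_gt_atTop 0] with x hx
        simp only [id, Real.norm_eq_abs, one_mul]
        rw [abs_of_pos hx, abs_of_pos (by linarith)]
        linarith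
      have e2 : (fun x : ℝ => 2 + x) =o[atTop] (fun x : ℝ => Real.exp (2 + x)) :=
by
        have h1 : (fun x : ℝ => x ^ 1) =o[atTop] Real.exp := Real.isLittleO_pow_exp_atTop
        have h2 := h1.comp_tendsto t2
        refine h2.congr' (Eventually.of_forall fun x => ?_) (Eventually.of_forall fun x => rfl)
        simp
      have hc := lin_of_chain (κ := Fin 3) atTop ![fun x : ℝ => Real.log x, fun x : ℝ => 2 + x,
        fun x : ℝ => Real.exp (2 + x)] (fun i => (i : ℕ)) Fin.val_injective (by
          intro y
          fin_cases y
          · exact t1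
          · exact t2
          · exact t3) (by
          intro i j hij
          fin_cases i <;> fin_cases j
          · exact absurd hij (by simp)
          · exact e1
          · exact e1.trans e2
          · exact absurd hij (by simp)
          · exact absurd hij (by simp)
          · exact e2
          · exact absurd hij (by simp)
          · exact absurd hij (by simp)
          · exact absurd hij (by simp))
        ![(m none : ℝ), (m (some none) : ℝ), ∑ j, (m (some (some j)) : ℝ) * Real.log (b j)] (by
          intro h0
          apply hm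
          have a0 : (m none : ℝ) = 0 := by simpa using congrFun h0 0
          have a0' : (m (some none) : ℝ) = 0 := by simpa using congrFun h0 1
          have a1 : ∑ j, (m (some (some j)) : ℝ) * Real.log (b j) = 0 := by simpa using congrFun h0 2
          have a2 := hb (fun j => m (some (some j))) a1
          funext y
          rcases y with _ | (_ | j)
          · exact_mod_cast a0
          · exact_mod_cast a0'
          · exact congrFun a2 j)
      have e : ∀ x : ℝ, ∑ y, (![(m none : ℝ), (m (some none) : ℝ),
          ∑ j, (m (some (some j)) : ℝ) * Real.log (b j)] : Fin 3 → ℝ) y *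
          (![fun x : ℝ => Real.log x, fun x : ℝ => 2 + x, fun x : ℝ => Real.exp (2 + x)] : Fin 3 → ℝ → ℝ) y x =
          ∑ y, (m y : ℝ) * (y.elim (Real.log x) fun y => y.elim (2 + x) fun j =>
            Real.log (b j) * Real.exp (2 + x)) := by
        intro x
        rw [Fin.sum_univ_three, Fintype.sum_option, Fintype.sum_option]
        simp only [Matrix.cons_val_zero, Matrix.cons_val_one, Matrix.cons_val, Option.elim]
        rw [sum_mul, add_assoc]
        congr 2
        exact sum_congr rfl fun j _ => by ring
      simp only [e] at hc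
      exact hc

/-- logarithms of distinct primes are linearly independent -/
theorem prime_indep {h : ℕ} (p : Fin h → ℕ) (hp : ∀ i, (p i).Prime) (hinj : Function.Injective p) (c : Fin h → ℤ)
    (h1 : ∑ i, (c i : ℝ) * Real.log ((p i : ℕ) : ℝ) = 0) : c = 0 := by
  funext j
  have h3 : ∑ i, (((c i).toNat : ℕ) : ℝ) * Real.log (p i) = ∑ i, (((-c i).toNat : ℕ) : ℝ) * Real.log (p i) := by
    rw [← sub_eq_zero, ← Finset.sum_sub_distrib, ← h1]
    apply Finset.sum_congr rfl
    intro i _
    rw [← sub_mul]
    congr 1
    have : ((c i).toNat : ℤ) - ((-c i).toNat : ℤ) = c i := by omega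
    exact_mod_cast this
  have hpos : ∀ i, (0 : ℝ) < p i := fun i => by exact_mod_cast (hp i).pos
  have h4 : ∀ e : Fin h → ℕ, ∑ i, (e i : ℝ) * Real.log (p i) = Real.log ((∏ i, p i ^ e i : ℕ) : ℝ) := by
    intro e
    push_cast
    rw [Real.log_prod (fun i _ => (pow_pos (hpos i) _).ne')]
    apply Finset.sum_congr rfl
    intro i _
    rw [Real.log_pow]
  rw [h4, h4] at h3
  have hpp : ∀ e : Fin h → ℕ, 0 < ∏ i, p i ^ e i := fun e =>
    Finset.prod_pos (fun i _ => pow_pos (hp i).pos _)
  have h5 : ∏ i, p i ^ (c i).toNat = ∏ i, p i ^ (-c i).toNat := by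
    have := Real.log_injOn_pos (Set.mem_Ioi.2 (by exact_mod_cast hpp _)) (Set.mem_Ioi.2 (by exact_mod_cast hpp _)) h3
    exact_mod_cast this
  have h6 : ∀ e : Fin h → ℕ, (∏ i, p i ^ e i).factorization (p j) = e j := by
    intro e
    rw [Nat.factorization_prod (fun i _ => (pow_pos (hp i).pos _).ne')]
    rw [Finsupp.finsetSum_apply, Finset.sum_eq_single j]
    · rw [(hp j).factorization_pow]; simp
    · intro i _ hij
      rw [(hp i).factorization_pow, Finsupp.single_apply, if_neg]
      exact fun h => hij (hinj h)
    · intro h; exact absurd (mem_univ _) h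
  have h7 := congrArg (fun n => n.factorization (p j)) h5
  simp only [h6] at h7
  simp only [Pi.zero_apply]
  omega

end Pool.Agent.Y668.PE
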