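import Mathlib

/-!
# Algebraic independence of functions with separated growth
-/

set_option autoImplicit false

open Filter Topology Asymptotics Finset

namespace Pool.Agent.Y668.PE

/-- all nontrivial integral combinations of the functions tend to `∞` or to `-∞` -/
def Sep {α κ : Type} [Fintype κ] (l : Filter α) (u : κ → α → ℝ) : Prop :=
  ∀ n : κ → ℤ, n ≠ 0 → Tendsto (fun x => ∑ y, (n y : ℝ) * u y x) l atTop ∨
    Tendsto (fun x => ∑ y, (n y : ℝ) * u y x) l atBot

/-- a finite family with strictly comparable growth is linearly independent -/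
theorem indep_of_growth {α ι : Type} (l : Filter α) [NeBot l] (s : Finset ι) (c : ι → ℂ) (g : ι → α → ℂ)
    (v : ι → α → ℝ) (hg : ∀ i ∈ s, ∀ᶠ x in l, ‖g i x‖ = Real.exp (v i x))
    (hv : ∀ i ∈ s, ∀ j ∈ s, i ≠ j → Tendsto (fun x => v i x - v j x) l atTop ∨
      Tendsto (fun x => v i x - v j x) l atBot)
    (h : ∀ᶠ x in l, ∑ i ∈ s, c i * g i x = 0) : ∀ i ∈ s, c i = 0 := by
  classical
  by_contra hcon
  push Not at hcon
  obtain ⟨i0, hi0, hc0⟩ := hcon
  set s' := s.filter fun i => c i ≠ 0 with hs'
  have hne : s'.Nonempty := ⟨i0, by rw [hs', mem_filter]; exact ⟨hi0, hc0⟩⟩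
  -- the largest element
  have hmax : ∀ t : Finset ι, t ⊆ s → t.Nonempty → ∃ m ∈ t, ∀ i ∈ t, i ≠ m →
      Tendsto (fun x => v i x - v m x) l atBot := by
    intro t
    induction t using Finset.induction_on with
    | empty => intro _ h; exact absurd h (by simp)
    | insert a t ha ih =>
      intro hts _
      rcases t.eq_empty_or_nonempty with h0 | hn
      · subst h0
        refine ⟨a, by simp, fun i hi hia => ?_⟩
        simp at hi
        exact absurd hi hia
      obtain ⟨m, hm, hmm⟩ := ih ((subset_insert _ _).trans hts) hn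
      have ham : a ≠ m := fun h => ha (h ▸ hm)
      rcases hv a (hts (mem_insert_self _ _)) m (hts (mem_insert_of_mem hm)) ham with h1 | h1
      · refine ⟨a, mem_insert_self _ _, fun i hi hia => ?_⟩
        rcases mem_insert.1 hi with h2 | h2
        · exact absurd h2 hia
        have h3 : Tendsto (fun x => v m x - v a x) l atBot := by
          have := tendsto_neg_atTop_atBot.comp h1
          refine this.congr fun x => ?_
          simp only [Function.comp_apply]
          ring
        rcases eq_or_ne i m with h4 | h4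
        · rw [h4]; exact h3
        · have := (hmm i h2 h4).atBot_add_atBot h3
          refine this.congr fun x => ?_
          ring
      · refine ⟨m, mem_insert_of_mem hm, fun i hi him => ?_⟩
        rcases mem_insert.1 hi with h2 | h2
        · rw [h2]; exact h1
        · exact hmm i h2 him
  obtain ⟨m, hm, hmm⟩ := hmax s' (filter_subset _ _) hne
  have hms : m ∈ s := (mem_filter.1 hm).1
  have hcm : c m ≠ 0 := (mem_filter.1 hm).2
  -- divide by the largest term
  have hlim : Tendsto (fun x => ∑ i ∈ s'.erase m, c i * (g i x / g m x)) l (𝓝 0) := by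
    have : (0 : ℂ) = ∑ _i ∈ s'.erase m, (0 : ℂ) := by simp
    rw [this]
    refine tendsto_finsetSum _ fun i hi => ?_
    have hi1 := mem_erase.1 hi
    have his : i ∈ s := (mem_filter.1 hi1.2).1
    have h1 : Tendsto (fun x => g i x / g m x) l (𝓝 0) := by
      rw [tendsto_zero_iff_norm_tendsto_zero]
      have h2 : Tendsto (fun x => Real.exp (v i x - v m x)) l (𝓝 0) :=
        Real.tendsto_exp_atBot.comp (hmm i hi1.2 hi1.1)
      refine h2.congr' ?_
      filter_upwards [hg i his, hg m hms] with x e1 e2
      rw [norm_div, e1, e2, Real.exp_sub]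
    have := h1.const_mul (c i)
    rwa [mul_zero] at this
  have hconst : ∀ᶠ x in l, c m = -∑ i ∈ s'.erase m, c i * (g i x / g m x) := by
    filter_upwards [h, hg m hms] with x hx e2
    have hgm : g m x ≠ 0 := by
      rw [← norm_ne_zero_iff, e2]
      exact (Real.exp_pos _).ne'
    have h1 : ∑ i ∈ s', c i * g i x = 0 := by
      rw [← hx, hs']
      apply sum_subset (filter_subset _ _)
      intro i hi hi'
      rw [mem_filter, not_and, not_not] at hi'
      rw [hi' hi, zero_mul]
    rw [← add_sum_erase _ _ hm] at h1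
    have h2 : c m + ∑ i ∈ s'.erase m, c i * (g i x / g m x) = 0 := by
      have : c m + ∑ i ∈ s'.erase m, c i * (g i x / g m x) =
          (c m * g m x + ∑ i ∈ s'.erase m, c i * g i x) / g m x := by
        rw [add_div, mul_div_cancel_right₀ _ hgm, sum_div]
        congr 1
        exact sum_congr rfl fun i _ => by rw [mul_div_assoc]
      rw [this, h1, zero_div]
    exact eq_neg_of_add_eq_zero_left h2
  have h3 : Tendsto (fun _ : α => c m) l (𝓝 0) := by
    have := hlim.neg
    rw [neg_zero] at this
    refine this.congr' ?_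
    filter_upwards [hconst] with x hx
    exact hx.symm
  exact hcm (tendsto_nhds_unique tendsto_const_nhds h3)

/-- polynomial relations between functions with separated growth -/
theorem sep_aindep {α κ : Type} [Fintype κ] (l : Filter α) [NeBot l] (f : κ → α → ℂ) (u : κ → α → ℝ)
    (hf : ∀ y, ∀ᶠ x in l, ‖f y x‖ = Real.exp (u y x)) (hu : Sep l u) (P : MvPolynomial κ ℂ)
    (h : ∀ᶠ x in l, MvPolynomial.eval (fun y => f y x) P = 0) : P = 0 := by
  classical
  have hall : ∀ᶠ x in l, ∀ y, ‖f y x‖ = Real.exp (u y x) := eventually_all.2 hf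
  have key := indep_of_growth l P.support (fun e => P.coeff e) (fun e x => ∏ y, f y x ^ e y)
    (fun e x => ∑ y, (e y : ℝ) * u y x) ?_ ?_ ?_
  · rw [← MvPolynomial.support_eq_empty]
    by_contra hne
    obtain ⟨e, he⟩ := Finset.nonempty_iff_ne_empty.2 hne
    exact (MvPolynomial.mem_support_iff.1 he) (key e he)
  · intro e _
    filter_upwards [hall] with x hx
    rw [norm_prod, Real.exp_sum]
    refine prod_congr rfl fun y _ => ?_
    rw [norm_pow, hx y, ← Real.exp_nat_mul]
  · intro e _ e' _ hee
    have hn : (fun y => ((e y : ℤ) - (e' y : ℤ))) ≠ 0 := by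
      intro h0
      apply hee
      ext y
      have := congrFun h0 y
      simp only [Pi.zero_apply] at this
      omega
    have e1 : ∀ x, (∑ y, (e y : ℝ) * u y x) - ∑ y, (e' y : ℝ) * u y x =
        ∑ y, ((((e y : ℤ) - (e' y : ℤ) : ℤ)) : ℝ) * u y x := by
      intro x
      rw [← sum_sub_distrib]
      refine sum_congr rfl fun y _ => ?_
      push_cast
      ring
    simp only [e1]
    exact hu _ hn
  · filter_upwards [h] with x hx
    rw [← hx, MvPolynomial.eval_eq]
    refine sum_congr rfl fun e _ => ?_
    congr 1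
    rw [← Finset.prod_subset (Finset.subset_univ e.support)]
    intro y _ hy
    rw [Finsupp.notMem_support_iff] at hy
    rw [hy, pow_zero]

/-- a chain of functions of increasing growth, real coefficients -/
theorem lin_of_chain {α κ : Type} [Fintype κ] (l : Filter α) (u : κ → α → ℝ) (r : κ → ℕ)
    (hr : Function.Injective r)
    (h1 : ∀ y, Tendsto (u y) l atTop) (h2 : ∀ i j, r i < r j → (u i) =o[l] (u j)) (n : κ → ℝ) (hn : n ≠ 0) :
    Tendsto (fun x => ∑ y, n y * u y x) l atTop ∨ Tendsto (fun x => ∑ y, n y * u y x) l atBot := by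
  classical
  obtain ⟨y0, hy0⟩ : ∃ y, n y ≠ 0 := by
    by_contra h
    push Not at h
    exact hn (funext h)
  set s : Finset κ := univ.filter fun y => n y ≠ 0 with hs
  have hne : s.Nonempty := ⟨y0, by rw [hs, mem_filter]; exact ⟨mem_univ _, hy0⟩⟩
  obtain ⟨m, hms, hmax⟩ := s.exists_max_image r hne
  have hnm : n m ≠ 0 := (mem_filter.1 hms).2
  have hlo : (fun x => ∑ y ∈ univ.erase m, n y * u y x) =o[l] (u m) := by
    suffices hs : ∀ y ∈ univ.erase m, (fun x => n y * u y x) =o[l] (u m) by
      have := IsLittleO.sum hs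
      refine this.congr_left fun x => ?_
      rw [Finset.sum_apply]
    intro y hy
    rcases eq_or_ne (n y) 0 with h0 | h0
    · simp only [h0, zero_mul]
      exact isLittleO_zero (E' := ℝ) (u m) l
    · have hys : y ∈ s := by rw [hs, mem_filter]; exact ⟨mem_univ _, h0⟩
      have hlt : r y < r m := lt_of_le_of_ne (hmax y hys) fun h => ne_of_mem_erase hy (hr h)
      exact (h2 y m hlt).const_mul_left _
  have hsum : ∀ x, ∑ y, n y * u y x = n m * u m x + ∑ y ∈ univ.erase m, n y * u y x :=
    fun x => (add_sum_erase _ _ (mem_univ m)).symm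
  have hnpos : 0 < |n m| := abs_pos.2 hnm
  have hev : ∀ᶠ x in l, |∑ y ∈ univ.erase m, n y * u y x| ≤ |n m| / 2 * |u m x| := by
    have := hlo.bound (show (0 : ℝ) < |n m| / 2 by positivity)
    simpa [Real.norm_eq_abs] using this
  have hpos : ∀ᶠ x in l, 0 ≤ u m x := (h1 m).eventually_ge_atTop 0
  rcases lt_or_gt_of_ne hnm with hlt | hgt
  · right
    have h3 : Tendsto (fun x => -(|n m| / 2 * u m x)) l atBot :=
      tendsto_neg_atTop_atBot.comp ((h1 m).const_mul_atTop (by positivity))
    refine tendsto_atBot_mono' l ?_ h3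
    filter_upwards [hev, hpos] with x e1 e2
    rw [hsum]
    rw [abs_of_nonneg e2, abs_of_neg hlt] at e1
    rw [abs_of_neg hlt]
    have := (abs_le.1 e1).2
    nlinarith
  · left
    have h3 : Tendsto (fun x => (|n m| / 2 * u m x)) l atTop := (h1 m).const_mul_atTop (by positivity)
    refine tendsto_atTop_mono' l ?_ h3
    filter_upwards [hev, hpos] with x e1 e2
    rw [hsum]
    rw [abs_of_nonneg e2, abs_of_pos hgt] at e1
    rw [abs_of_pos hgt]
    have := (abs_le.1 e1).1
    nlinarith

/-- a chain of functions of increasing growth -/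
theorem sep_of_chain {α κ : Type} [Fintype κ] (l : Filter α) (u : κ → α → ℝ) (r : κ → ℕ)
    (hr : Function.Injective r)
    (h1 : ∀ y, Tendsto (u y) l atTop) (h2 : ∀ i j, r i < r j → (u i) =o[l] (u j)) : Sep l u := by
  intro n hn
  refine lin_of_chain l u r hr h1 h2 (fun y => (n y : ℝ)) ?_
  intro h
  apply hn
  funext y
  have := congrFun h y
  simpa using this

end Pool.Agent.Y668.PE
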