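import Pool.Agent.Y668.PE.LogExp

/-!
# Towers of `M = -i log x`
-/

set_option autoImplicit false

open Filter Topology Asymptotics Finset MvPolynomial

namespace Pool.Agent.Y668.PE

/-- the towers `w`, `w^w`, `w^(w^w)`, … -/
noncomputable def twr : ℕ → ℂ → ℂ
  | 0, w => w
  | i + 1, w => Complex.exp (twr i w * Complex.log w)

/-- their logarithms on the real line -/
noncomputable def ltw : ℕ → ℝ → ℝ
  | 0, x => Real.log x
  | i + 1, x => Real.exp (ltw i x) * Real.log x

theorem twr_real (i : ℕ) {x : ℝ} (hx : 0 < x) : twr i x = ((Real.exp (ltw i x) : ℝ) : ℂ) := by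
  induction i with
  | zero => simp only [twr, ltw]; rw [Real.exp_log hx]
  | succ i ih =>
    simp only [twr, ltw]
    rw [ih, ← Complex.ofReal_log hx.le, ← Complex.ofReal_mul, ← Complex.ofReal_exp]

theorem twr_an (i : ℕ) : AnalyticOnNhd ℂ (twr i) RH := by
  induction i with
  | zero => exact fun w _ => (analyticAt_id : AnalyticAt ℂ (fun w : ℂ => w) w)
  | succ i ih =>
    intro w hw
    have hs : w ∈ Complex.slitPlane := Or.inl hw
    have hl : AnalyticAt ℂ (fun w : ℂ => Complex.log w) w := analyticAt_id.clog hs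
    exact (((ih w hw).mul hl).cexp : AnalyticAt ℂ (fun w : ℂ => Complex.exp (twr i w * Complex.log w)) w)

theorem ltw_tendsto (i : ℕ) : Tendsto (ltw i) atTop atTop := by
  induction i with
  | zero => exact Real.tendsto_log_atTop
  | succ i ih => exact (Real.tendsto_exp_atTop.comp ih).atTop_mul_atTop₀ Real.tendsto_log_atTop

theorem ltw_succ (i : ℕ) : ltw i =o[atTop] ltw (i + 1) := by
  induction i with
  | zero =>
    have h1 : (fun x : ℝ => Real.log x) =o[atTop] (fun x : ℝ => Real.log x * x) :=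
      littleO_mul_log _ _ _ tendsto_id
    refine (h1.congr' (Eventually.of_forall fun x => rfl) ?_)
    filter_upwards [eventually_gt_atTop 0] with x hx
    simp only [ltw]
    rw [Real.exp_log hx, mul_comm]
  | succ i ih =>
    have h1 := exp_superlin _ _ _ (ltw_tendsto (i + 1)) ih
    have h2 : (fun x => Real.exp (ltw i x)) =o[atTop] (fun x => Real.exp (ltw (i + 1) x)) :=
      Real.isLittleO_exp_comp_exp_comp.2 h1
    exact h2.mul_isBigO (isBigO_refl _ _)

theorem ltw_lt {i j : ℕ} (h : i < j) : ltw i =o[atTop] ltw j := by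
  induction j with
  | zero => omega
  | succ j ih =>
    rcases Nat.lt_succ_iff_lt_or_eq.1 h with h1 | h1
    · exact (ih h1).trans (ltw_succ j)
    · rw [h1]
      exact ltw_succ j

/-- the positive real numbers -/
def SPos : Set ℂ := {w | ∃ r : ℝ, 0 < r ∧ w = r}

theorem SPos_freq : ∃ᶠ w in 𝓝[≠] (((1 / 2 : ℝ)) : ℂ), w ∈ SPos := by
  refine SLE_freq.mono ?_
  rintro w ⟨r, h1, -, -, h2⟩
  exact ⟨r, h1, h2⟩

theorem rho_tendsto (r : ℝ) : Tendsto (fun n : ℕ => r + n * (2 * Real.pi)) atTop atTop :=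
  tendsto_atTop_add_const_left _ _ (tendsto_natCast_atTop_atTop.atTop_mul_const (by positivity))

theorem rho_cast (r : ℝ) (n : ℕ) : ((r : ℂ) + n * (2 * Real.pi)) = ((r + n * (2 * Real.pi) : ℝ) : ℂ) := by
  push_cast
  ring

theorem M_locInd (k : ℕ) (t0 : ℂ) (ht0 : -t0 ∈ Complex.slitPlane)
    (P : MvPolynomial (Option (Empty ⊕ Fin k)) ℂ)
    (h : ∀ᶠ t in 𝓝 t0, eval (fun o => o.elim t fun y => Sum.elim (fun (e : Empty) (_ : ℂ) => e.elim)
      (fun (i : Fin k) w => twr i w) y (arg0 t)) P = 0) : P = 0 := by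
  refine mono (κ₁ := Empty) (κ₂ := Fin k) (fun (e : Empty) (_ : ℂ) => e.elim) (fun (i : Fin k) w => twr i w)
    (fun y => y.elim) (fun i => twr_an i) (fun y => y.elim) SPos ?_ ?_ ?_ t0 ht0 P h
  · rintro w ⟨r, hr, rfl⟩
    exact hr
  · rintro w ⟨r, hr, rfl⟩
    refine ⟨fun i n => ltw i (r + n * (2 * Real.pi)), ?_, ?_⟩
    · intro i
      refine Eventually.of_forall fun n => ?_
      rw [rho_cast, twr_real i (by positivity), Complex.norm_real, Real.norm_eq_abs, Real.abs_exp]
    · refine sep_of_chain atTop _ (fun i : Fin k => (i : ℕ)) Fin.val_injective ?_ ?_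
      · exact fun i => (ltw_tendsto i).comp (rho_tendsto r)
      · exact fun i j hij => (ltw_lt hij).comp_tendsto (rho_tendsto r)
  · intro R hR
    refine base (fun (e : Empty) (_ : ℂ) => e.elim) (fun y => y.elim) (fun _ x => Real.log x) ?_ (fun y => y.elim)
      ?_ SPos _ SPos_freq R ?_
    · filter_upwards [eventually_gt_atTop 0] with x hx
      exact (Real.exp_log hx).symm
    · refine sep_of_chain atTop _ (fun _ => 0) (fun _ _ _ => Subsingleton.elim _ _) ?_ ?_
      · exact fun _ => Real.tendsto_log_atTop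
      · intro i j hij
        exact absurd hij (by simp)
    · intro w hw
      rw [← hR w hw]

end Pool.Agent.Y668.PE
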